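import Mathlib
import Pool.Agent.U337.EM.Asm
import Pool.Agent.U337.EM.G
import Pool.Agent.U739.EM.FQ
import Pool.Agent.U375.EM.Z
import Pool.Agent.U574.EM.GR
import Pool.Agent.U928.EM.O
import Pool.Agent.U451.EM.DT
import Pool.Agent.U796.EM.PM
import Pool.Agent.U603.EM.I
import Pool.Agent.U608.EM.A
import Pool.Agent.U454.EM.FX
import Pool.Agent.U324.EM.B
import Pool.Agent.U7.EM.X
import Pool.Agent.U337.EM.TC

set_option autoImplicit false

namespace Pool.Agent.Results.MP_6e5a6a_al.MetabelianDetermined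

/-- `L` is metabelian: its derived algebra is abelian. -/
def IsMetabelian (F L : Type) [Field F] [LieRing L] [LieAlgebra F L] : Prop :=
  ∀ x ∈ LieAlgebra.derivedSeries F L 1, ∀ y ∈ LieAlgebra.derivedSeries F L 1, ⁅x, y⁆ = 0

/-- `L` is determined by its enveloping algebra. -/
def IsDetermined (F L : Type) [Field F] [LieRing L] [LieAlgebra F L] : Prop :=
  ∀ (H : Type) [LieRing H] [LieAlgebra F H],
    Nonempty (UniversalEnvelopingAlgebra F L ≃ₐ[F] UniversalEnvelopingAlgebra F H) →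
    Nonempty (L ≃ₗ⁅F⁆ H)

theorem result (F : Type) [Field F] [CharZero F] (L : Type) [LieRing L] [LieAlgebra F L]
    [Module.Finite F L] (hL : IsMetabelian F L) : IsDetermined F L := by
  intro H _ _ hU
  refine Pool.Agent.U337.EM.assembly
    (Pool.Agent.U739.EM.FQ.t_FQ (Pool.Agent.U454.EM.FX.t_FX Pool.Agent.U7.EM.X.t_X))
    (Pool.Agent.U375.EM.t_Z Pool.Agent.U608.EM.A.t_A) Pool.Agent.U574.EM.t_GR Pool.Agent.U324.EM.t_B
    (Pool.Agent.U337.EM.T669.t_C Pool.Agent.U608.EM.A.t_A)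
    (Pool.Agent.U337.EM.GG.t_G Pool.Agent.U796.EM.t_PM Pool.Agent.U928.EM.t_O Pool.Agent.U451.EM.t_DT)
    Pool.Agent.U603.EM.t_I F L ?_ H hU
  intro a b c e
  have h : ∀ a b : L, ⁅a, b⁆ ∈ LieAlgebra.derivedSeries F L 1 := by
    intro a b
    rw [LieAlgebra.derivedSeries_def, LieAlgebra.derivedSeriesOfIdeal_succ,
      LieAlgebra.derivedSeriesOfIdeal_zero]
    exact LieSubmodule.lie_mem_lie (LieSubmodule.mem_top _) (LieSubmodule.mem_top _)
  exact hL _ (h a b) _ (h c e)

end Pool.Agent.Results.MP_6e5a6a_al.MetabelianDetermined
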